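import Pool.Agent.Q216.EX.Main

set_option autoImplicit false

/-!
# MP_fa4fe0_co : an extremal matrix with an optimal cover outside of the lattice `δℤ`

There is an extremal `9`-dimensional `(0,1)`-matrix of order `2` with deficiency `δ = 1/25` that
has an optimal hyperplane cover with an entry `1/10`, which is not an integer multiple of `δ`.
In particular the optimal hyperplane cover of an extremal matrix need not be unique.
-/

namespace Pool.Agent.Results.MP_fa4fe0_co.Disproof

open Pool.Agent.Q216.EX

theorem result : ∃ A : Set (Fin 9 → Fin 2), IsExtremal A ∧ HasDeficiency A (1 / 25) ∧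
    (∃ L, IsOptimalCover A L ∧ ∃ i j, ∀ z : ℤ, L i j ≠ (z : ℝ) * (1 / 25)) ∧
    ∃ L M, IsOptimalCover A L ∧ IsOptimalCover A M ∧ L ≠ M := by
  refine ⟨A, extremal, deficiency, ⟨_, opt_v, 7, 1, opt_v_entry⟩,
    ⟨cov w (25 : ℤ), cov v (50 : ℤ), opt_w, opt_v, fun h => ?_⟩⟩
  refine opt_v_entry 3 ?_
  rw [← h]
  simp [cov, w]
  norm_num

end Pool.Agent.Results.MP_fa4fe0_co.Disproof
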